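import Pool.Agent.Helper98.MG.BddB

/-!
# Block A, module 3b: trees and boundedness
-/

set_option autoImplicit false

namespace Pool.Agent.Helper48.MG

variable {M : Type} [ZFM M]
variable {α β γ δ : Type} [Cl M α] [Cl M β] [Cl M γ] [Cl M δ]

/-- ranks of subrelations -/
theorem RL.sub {X : Type} [Cl M X] [Ob M X] {T : Type} [Cl M T] [Ob M T] [LinearOrder T] [IWO M T]
    {R R' : IFun M (X × X) Prop} (hR : ∀ x y, R (x, y) → R' (x, y)) {x : X} {a : T}
    (h : RL R' x a) : RL R x a := by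
  refine RL.ind (R := R') (P := fun x a => MG.RL R x a) (by fun_prop) ?_ h
  intro x a hxa
  refine RL.intro fun y hy => ?_
  obtain ⟨b, hb, _, hb'⟩ := hxa y (hR y x hy)
  exact ⟨b, hb, hb'⟩

/-- no descending sequence starts at an element with a rank -/
theorem Rkd.no_desc {X : Type} [Cl M X] [Ob M X] {T : Type} [Cl M T] [Ob M T] [LinearOrder T]
    [IWO M T] [Nonempty T] {R : IFun M (X × X) Prop} {s : N M → X} (hs : IF M s)
    (h : Rkd T R (s 0)) (hd : ∀ j, R (s (sc j), s j)) : False := by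
  have h1 : ∀ j, Rkd T R (s j) := by
    refine N.ind (fun j => Rkd T R (s j)) (by fun_prop) h ?_
    intro n hn
    exact hn.below (hd n)
  obtain ⟨a, ⟨j, hj⟩, hmin⟩ := IWO.least (M := M) (fun a : T => ∃ j, rk T R (s j) = a)
    (by fun_prop) ⟨_, 0, rfl⟩
  have h2 := rk_lt (h1 j) (hd j)
  rw [hj] at h2
  exact not_le.2 h2 (hmin _ ⟨sc j, rfl⟩)

/-- three reals in one -/
noncomputable def en3 (r z s : Re M) : Re M := lam (fun n => pr (pr (r n) (z n)) (s n)) (by fun_prop)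

@[fun_prop] theorem IF.en3 {f g h : α → Re M} (hf : IF M f) (hg : IF M g) (hh : IF M h) :
    IF M (fun x => en3 (f x) (g x) (h x)) := by
  unfold MG.en3; fun_prop

theorem cd_en3 {r z s r' z' s' : Re M} {n : N M} : cd (en3 r z s) n = cd (en3 r' z' s') n ↔
    cd r n = cd r' n ∧ cd z n = cd z' n ∧ cd s n = cd s' n := by
  rw [cd_eq, cd_eq, cd_eq, cd_eq]
  constructor
  · intro h
    refine ⟨fun k hk => (pr_inj (pr_inj (h k hk)).1).1, fun k hk => (pr_inj (pr_inj (h k hk)).1).2,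
      fun k hk => (pr_inj (h k hk)).2⟩
  · rintro ⟨h1, h2, h3⟩ k hk
    exact congrArg₂ pr (congrArg₂ pr (h1 k hk) (h2 k hk)) (h3 k hk)

theorem exists_en3 (w : Re M) : ∃ r z s : Re M, ∀ r' z' s' m, cd w m = cd (en3 r' z' s') m →
    cd r m = cd r' m ∧ cd z m = cd z' m ∧ cd s m = cd s' m := by
  refine ⟨lam (fun n => u1 (u1 (w n))) (by fun_prop), lam (fun n => u2 (u1 (w n))) (by fun_prop), lam (fun n => u2 (w n)) (by fun_prop),
    fun r' z' s' m h => ?_⟩
  rw [cd_eq] at h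
  rw [cd_eq, cd_eq, cd_eq]
  refine ⟨fun k hk => ?_, fun k hk => ?_, fun k hk => ?_⟩
  · show u1 (u1 (w k)) = r' k
    rw [h k hk]
    show u1 (u1 (pr (pr (r' k) (z' k)) (s' k))) = r' k
    simp
  · show u2 (u1 (w k)) = z' k
    rw [h k hk]
    show u2 (u1 (pr (pr (r' k) (z' k)) (s' k))) = z' k
    simp
  · show u2 (w k) = s' k
    rw [h k hk]
    show u2 (pr (pr (r' k) (z' k)) (s' k)) = s' k
    simp

/-- the tree of the attempts to find a real in a `Σ¹₁` set and a descending sequence of the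
relation coded by it -/
noncomputable def BT (x : Re M) : IFun M (N M × N M) Prop := lam (fun p =>
  ∃ (r z s : Re M) (m : N M), p.2 = cd (en3 r z s) m ∧ p.1 = cd (en3 r z s) (sc m) ∧
    (∀ j, j ≤ sc m → x (pr (cd (Tp.enc (r, s 0)) j) (cd z j)) = 0) ∧
    ∀ i, i < m → pr (s (sc i)) (s i) < m → r (pr (s (sc i)) (s i)) = 0) (by fun_prop)

theorem BT_apply {x : Re M} {t' t : N M} : BT x (t', t) ↔
    ∃ (r z s : Re M) (m : N M), t = cd (en3 r z s) m ∧ t' = cd (en3 r z s) (sc m) ∧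
    (∀ j, j ≤ sc m → x (pr (cd (Tp.enc (r, s 0)) j) (cd z j)) = 0) ∧
    ∀ i, i < m → pr (s (sc i)) (s i) < m → r (pr (s (sc i)) (s i)) = 0 := Iff.rfl

theorem cd_enc_pair {r r' : Re M} {k k' : N M} {n : N M} (h : cd r n = cd r' n) (hk : k = k') :
    cd (Tp.enc (r, k) : Re M) n = cd (Tp.enc (r', k') : Re M) n := by
  subst hk
  exact agr_prod.2 ⟨h, rfl⟩

/-- boundedness, the main form -/
theorem bdd0 {P : Re M × N M → Prop} (hP : Sig M P)
    (h : ∀ r k, P (r, k) → Rkd (W M) (rel r) k) :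
    ∃ b : W M, ∀ r k, P (r, k) → RL (rel r) k b := by
  classical
  obtain ⟨x, hx⟩ := hP
  have hwf : IWf (BT x) := by
    by_contra hcon
    obtain ⟨t, ht⟩ := exists_desc hcon
    obtain ⟨w, hw1, hw2⟩ := exists_branch t fun j => by
      obtain ⟨r, z, s, m, h1, h2, _⟩ := BT_apply.1 (ht j)
      exact ⟨_, m, h1, h2⟩
    obtain ⟨r, z, s, hrzs⟩ := exists_en3 w
    -- conditions at every length
    have key : ∀ n, ∃ m, n ≤ m ∧ (∀ j, j ≤ m → x (pr (cd (Tp.enc (r, s 0)) j) (cd z j)) = 0) ∧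
        ∀ i, sc i < m → pr (s (sc i)) (s i) < m → pr (s (sc i)) (s i) < n →
          r (pr (s (sc i)) (s i)) = 0 := by
      intro n
      obtain ⟨j, m, hm, hj⟩ := hw2 (sc n)
      obtain ⟨r', z', s', m', h1, h2, h3, h4⟩ := BT_apply.1 (ht j)
      rw [hj] at h1
      obtain ⟨e, _⟩ := cd_eq_iff.1 h1
      subst e
      obtain ⟨m2, hm2⟩ := hw1 (sc j)
      rw [hm2] at h2
      obtain ⟨e, _⟩ := cd_eq_iff.1 h2
      subst e
      obtain ⟨g1, g2, g3⟩ := hrzs _ _ _ _ h2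
      have s0 : s 0 = s' 0 := cd_eq.1 g3 0 (N.zero_lt_sc _)
      refine ⟨m, (N.lt_sc_self n).le.trans hm, fun j hj => ?_, fun i hi hp _ => ?_⟩
      · have hj' : j ≤ sc m := hj.trans (N.lt_sc_self m).le
        rw [cd_enc_pair (cd_anti hj' g1) s0, cd_anti hj' g2]
        exact h3 j hj'
      · have e1 : s (sc i) = s' (sc i) := cd_eq.1 g3 _ (hi.trans (N.lt_sc_self m))
        have e2 : s i = s' i := cd_eq.1 g3 _ (((N.lt_sc_self i).trans hi).trans (N.lt_sc_self m))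
        rw [e1, e2] at hp ⊢
        rw [cd_eq.1 g1 _ (hp.trans (N.lt_sc_self m))]
        exact h4 i ((N.lt_sc_self i).trans hi) hp
    have hPr : P (r, s 0) := (hx (r, s 0)).2 ⟨z, fun n => by
      obtain ⟨m, hm, h1, _⟩ := key n
      exact h1 n hm⟩
    refine (h r (s 0) hPr).no_desc (s := fun j => s j) (by fun_prop) fun i => ?_
    show r (pr (s (sc i)) (s i)) = 0
    obtain ⟨m, hm, _, h2⟩ := key (max (sc (sc i)) (sc (pr (s (sc i)) (s i))))
    have h3 : sc i < m := N.sc_le.1 ((le_max_left _ _).trans hm)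
    have h4 : pr (s (sc i)) (s i) < m := N.sc_le.1 ((le_max_right _ _).trans hm)
    exact h2 i h3 h4 (N.sc_le.1 (le_max_right _ _))
  obtain ⟨b, hb⟩ := rkd_of_iwf hwf not_cov_W (cd (lam (fun _ => 0) (by fun_prop) : Re M) 0)
  refine ⟨b, fun r k hrk => ?_⟩
  obtain ⟨z, hz⟩ := (hx (r, k)).1 hrk
  have main : ∀ (t : N M) (a : W M), RL (BT x) t a → ∀ (s : Re M) (m : N M),
      t = cd (en3 r z s) (sc m) → s 0 = k → (∀ i, i < m → r (pr (s (sc i)) (s i)) = 0) →
        RL (rel r) (s m) a := by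
    intro t a hta
    refine RL.ind (R := BT x) (P := fun t a => ∀ (s : Re M) (m : N M),
      t = cd (en3 r z s) (sc m) → s 0 = k → (∀ i, i < m → r (pr (s (sc i)) (s i)) = 0) →
        MG.RL (rel r) (s m) a) (by fun_prop) ?_ hta
    intro t a IH s m hts hs0 hsd
    refine RL.intro fun y hy => ?_
    have hif : IF M (fun i : N M => if i ≤ m then s i else y) := by fun_prop
    let s' : Re M := ⟨_, hif⟩
    have hs' : ∀ i, i ≤ m → s' i = s i := fun i hi => if_pos hi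
    have hs'm : s' (sc m) = y := if_neg (not_le.2 (N.lt_sc_self m))
    have hd' : ∀ i, i < sc m → r (pr (s' (sc i)) (s' i)) = 0 := by
      intro i hi
      have hi' := N.lt_sc.1 hi
      rw [hs' i hi']
      rcases lt_or_eq_of_le hi' with h1 | h1
      · rw [hs' (sc i) (N.sc_le.2 h1)]
        exact hsd i h1
      · subst h1
        rw [hs'm]
        exact hy
    have h0' : s' 0 = k := by rw [hs' 0 (N.zero_le m), hs0]
    have hts' : t = cd (en3 r z s') (sc m) := by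
      rw [hts, cd_en3]
      refine ⟨rfl, rfl, cd_eq.2 fun i hi => (hs' i (N.lt_sc.1 hi)).symm⟩
    obtain ⟨b, hb, _, hb'⟩ := IH (cd (en3 r z s') (sc (sc m))) (BT_apply.2
      ⟨r, z, s', sc m, hts', rfl, fun j _ => by rw [h0']; exact hz j, fun i hi _ => hd' i hi⟩)
    refine ⟨b, hb, ?_⟩
    have := hb' s' (sc m) rfl h0' hd'
    rwa [hs'm] at this
  obtain ⟨c, hc, hc'⟩ := hb.elim (cd (en3 r z (lam (fun _ => k) (by fun_prop))) (sc 0)) (BT_apply.2
    ⟨r, z, lam (fun _ => k) (by fun_prop), 0, by rw [cd_zero, cd_zero], rfl, fun j _ => hz j,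
      fun i hi _ => (N.not_lt_zero i hi).elim⟩)
  exact (main _ c hc' (lam (fun _ => k) (by fun_prop)) 0 rfl rfl fun i hi => (N.not_lt_zero i hi).elim).mono hc.le

variable [Tp M α] [Tp M β]

open Classical in
/-- the code of the tree of attempts -/
noncomputable def TT (x : Re M) (a : α) (n : N M) : N M :=
  if ∃ (w : Re M) (m : N M), u2 n = cd w m ∧ u1 n = cd w (sc m) ∧
    ∀ j, j ≤ sc m → x (pr (cd (Tp.enc a) j) (cd w j)) = 0 then 0 else sc 0

theorem if_TT (x : Re M) : IF M (fun q : α × N M => TT x q.1 q.2) := by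
  unfold MG.TT; fun_prop

theorem ct_TT (x : Re M) : Ct M (fun q : α × N M => TT x q.1 q.2) := by
  classical
  refine Ct.of_nat (if_TT x) fun a k => ?_
  by_cases hk : ∃ (w : Re M) (m : N M), u2 k = cd w m
  · obtain ⟨w, m, hw⟩ := hk
    refine ⟨sc m, fun b hb => ?_⟩
    have h1 : ∀ a b : α, agr (sc m) a b → (∃ (w : Re M) (m : N M), u2 k = cd w m ∧
        u1 k = cd w (sc m) ∧ ∀ j, j ≤ sc m → x (pr (cd (Tp.enc a) j) (cd w j)) = 0) →
        (∃ (w : Re M) (m : N M), u2 k = cd w m ∧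
        u1 k = cd w (sc m) ∧ ∀ j, j ≤ sc m → x (pr (cd (Tp.enc b) j) (cd w j)) = 0) := by
      rintro a b hab ⟨w', m', h1, h2, h3⟩
      refine ⟨w', m', h1, h2, fun j hj => ?_⟩
      have h4 : m = m' := (cd_eq_iff.1 (hw.symm.trans h1)).1
      subst h4
      have h5 : cd (Tp.enc a : Re M) j = cd (Tp.enc b : Re M) j := hab.anti hj
      rw [← h5]
      exact h3 j hj
    show (if _ then (0 : N M) else sc 0) = (if _ then (0 : N M) else sc 0)
    exact if_congr ⟨h1 a b hb, h1 b a hb.symm⟩ rfl rfl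
  · refine ⟨0, fun b _ => ?_⟩
    have h1 : ∀ b : α, ¬ (∃ (w : Re M) (m : N M), u2 k = cd w m ∧
        u1 k = cd w (sc m) ∧ ∀ j, j ≤ sc m → x (pr (cd (Tp.enc b) j) (cd w j)) = 0) := by
      rintro b ⟨w, m, h1, _⟩
      exact hk ⟨w, m, h1⟩
    show (if _ then (0 : N M) else sc 0) = (if _ then (0 : N M) else sc 0)
    rw [if_neg (h1 a), if_neg (h1 b)]

theorem TT_iff {x : Re M} {a : α} {k l : N M} : TT x a (pr k l) = 0 ↔
    ∃ (w : Re M) (m : N M), l = cd w m ∧ k = cd w (sc m) ∧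
      ∀ j, j ≤ sc m → x (pr (cd (Tp.enc a) j) (cd w j)) = 0 := by
  unfold MG.TT
  rw [u1_pr, u2_pr]
  constructor
  · intro h
    split_ifs at h with h'
    · exact h'
    · exact (N.sc_ne_zero _ h).elim
  · intro h
    rw [if_pos h]

/-- a `Σ¹₁` set is the set of the `a` for which a tree is not wellfounded -/
theorem Sig.tree {P : α → Prop} (h : Sig M P) :
    ∃ T : α → Re M, Ct M T ∧ ∀ a, P a ↔ ¬ WF (T a) := by
  obtain ⟨x, hx⟩ := h
  have hT : ∀ a : α, IF M (TT (M := M) x a) := fun a =>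
    (if_TT x).comp (g := fun n : N M => (a, n)) (by fun_prop)
  refine ⟨fun a => lam (TT x a) (hT a), Ct.lam (ct_TT x), fun a => ?_⟩
  have hrel : ∀ k l, rel (lam (TT x a) (hT a)) (k, l) ↔ ∃ (w : Re M) (m : N M), l = cd w m ∧
      k = cd w (sc m) ∧ ∀ j, j ≤ sc m → x (pr (cd (Tp.enc a) j) (cd w j)) = 0 := fun k l => by
    show TT x a (pr k l) = 0 ↔ _
    exact TT_iff
  constructor
  · intro ha hwf
    obtain ⟨z, hz⟩ := (hx a).1 ha
    refine (hwf (cd z 0)).no_desc (s := fun j => cd z j) (by fun_prop) fun j => ?_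
    exact (hrel _ _).2 ⟨z, j, rfl, rfl, fun j _ => hz j⟩
  · intro hwf
    rw [WF_iff] at hwf
    obtain ⟨t, ht⟩ := exists_desc hwf
    obtain ⟨w, hw1, hw2⟩ := exists_branch t fun j => by
      obtain ⟨w, m, h1, h2, _⟩ := (hrel _ _).1 (ht j)
      exact ⟨w, m, h1, h2⟩
    refine (hx a).2 ⟨w, fun n => ?_⟩
    obtain ⟨j, m, hm, hj⟩ := hw2 n
    obtain ⟨w', m', h1, h2, h3⟩ := (hrel _ _).1 (ht j)
    rw [hj] at h1
    obtain ⟨e, _⟩ := cd_eq_iff.1 h1
    subst e
    rw [cd_anti hm h1]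
    exact h3 n (hm.trans (N.lt_sc_self m).le)

variable [AD M]

/-- boundedness for `Σ¹₁` relations -/
theorem bddG {P : α × N M → Prop} {E : (α × N M) × N M → Prop} (hP : Sig M P) (hE : Sig M E)
    (hE' : ∀ a, IF M (fun p : N M × N M => E ((a, p.1), p.2)))
    (h : ∀ a k, P (a, k) → Rkd (W M) ⟨_, hE' a⟩ k) :
    ∃ b : W M, ∀ a k, P (a, k) → RL ⟨_, hE' a⟩ k b := by
  have h1 : Sig M (fun q : Re M × N M => ∃ a : α, P (a, q.2) ∧
      ∀ k l, rel q.1 (k, l) → E ((a, k), l)) := by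
    refine Sig.ex (Sig.and (hP.comp (by fun_prop)) (Sig.allN (Sig.allN (Sig.imp_ct (by fun_prop)
      (hE.comp (by fun_prop))))))
  obtain ⟨b, hb⟩ := bdd0 h1 fun r k => by
    rintro ⟨a, ha, ha'⟩
    obtain ⟨b, hb⟩ := h a k ha
    exact ⟨b, hb.sub fun x y hxy => ha' x y hxy⟩
  refine ⟨b, fun a k hk => ?_⟩
  obtain ⟨r, hr⟩ := exists_rel ⟨_, hE' a⟩
  exact (hb r k ⟨a, hk, fun k l h => (hr k l).1 h⟩).sub fun x y hxy => (hr x y).2 hxy

/-- boundedness of the rank of one element -/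
theorem bddE {P : α → Prop} {E : (α × N M) × N M → Prop} (hP : Sig M P) (hE : Sig M E)
    (k0 : N M) (hE' : ∀ a, IF M (fun p : N M × N M => E ((a, p.1), p.2)))
    (h : ∀ a, P a → Rkd (W M) ⟨_, hE' a⟩ k0) :
    ∃ b : W M, ∀ a, P a → RL ⟨_, hE' a⟩ k0 b := by
  obtain ⟨b, hb⟩ := bddG (P := fun q : α × N M => P q.1 ∧ q.2 = k0)
    (Sig.and (hP.comp (by fun_prop)) (Sig.ct (by fun_prop))) hE hE' (by
      rintro a k ⟨ha, rfl⟩
      exact h a ha)
  exact ⟨b, fun a ha => hb a k0 ⟨ha, rfl⟩⟩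

/-- boundedness -/
theorem bdd {P : α → Prop} {f : α → Re M} (hP : Sig M P) (hf : Ct M f)
    (h : ∀ a, P a → WF (f a)) : ∃ b : W M, ∀ a, P a → nrm (f a) ≤ b := by
  obtain ⟨b, hb⟩ := bddG (P := fun q : α × N M => P q.1)
    (E := fun q => rel (f q.1.1) (q.1.2, q.2)) (hP.comp (by fun_prop)) (Sig.ct (by fun_prop))
    (fun a => by
      have hf0 := hf.iff
      show IF M (fun p : N M × N M => (rel (f a)).toFun (p.1, p.2))
      fun_prop) (fun a k ha => h a ha k)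
  refine ⟨b, fun a ha => ((h a ha).nrm_le_iff).2 fun k => (hb a k ha).rk_le⟩

end Pool.Agent.Helper48.MG
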